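import Mathlib

/-!
# A generalized pseudostandard word fixed by a primitive morphism but by no `φ_k`
-/

set_option autoImplicit false

namespace Pool.Agent.Results.MP_b60f05_co.Composite

/-- The two antimorphisms: the reversal `R` and the exchange antimorphism `E`. -/
inductive Anti
  | R
  | E
deriving DecidableEq

/-- The letter map of an antimorphism: `R` keeps the letters, `E` exchanges them. -/
def Anti.flip : Anti → Bool → Bool
  | .R, a => a
  | .E, a => !a

/-- The action of an antimorphism on words. -/
def Anti.app (θ : Anti) (w : List Bool) : List Bool := (w.map θ.flip).reverse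

/-- `y` is the `θ`-palindromic closure of `w`: the shortest `θ`-palindrome with prefix `w`. -/
def IsClosure (θ : Anti) (w y : List Bool) : Prop :=
  θ.app y = y ∧ w <+: y ∧ ∀ z, θ.app z = z → w <+: z → y.length ≤ z.length

/-- The prefix of length `n` of an infinite word (`false` is the letter `0`, `true` is `1`). -/
def pre (u : ℕ → Bool) (n : ℕ) : List Bool := (List.range n).map u

/-- `u` is the word `u(Δ, Θ)`: `w 0` is empty, `w (n+1)` is the closure of `w n` followed by
`Δ n`, and every `w n` is a prefix of `u`. -/
def IsGPS (Δ : ℕ → Bool) (Θ : ℕ → Anti) (u : ℕ → Bool) : Prop :=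
  ∃ w : ℕ → List Bool, w 0 = [] ∧ (∀ n, IsClosure (Θ n) (w n ++ [Δ n]) (w (n + 1))) ∧
    ∀ n, w n = pre u (w n).length

/-- `u` is aperiodic, i.e. not eventually periodic. -/
def Aperiodic (u : ℕ → Bool) : Prop := ¬ ∃ N p, 0 < p ∧ ∀ i, N ≤ i → u (i + p) = u i

/-- A primitive morphism: for some power the images of both letters contain both letters. -/
def Primitive (φ : Bool → List Bool) : Prop :=
  ∃ n, 1 ≤ n ∧ ∀ a b, b ∈ (fun w : List Bool => w.flatMap φ)^[n] [a]

/-- The (non-erasing) morphism `φ` fixes `u`: the images of the prefixes of `u` are prefixes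
of `u`. -/
def Fixes (φ : Bool → List Bool) (u : ℕ → Bool) : Prop :=
  ∀ n, (pre u n).flatMap φ = pre u ((pre u n).flatMap φ).length

/-- The morphism `φ_k : 0 ↦ 0(110)^k, 1 ↦ 1(001)^k`. -/
def phi (k : ℕ) (a : Bool) : List Bool := a :: (List.replicate k [!a, !a, a]).flatten

namespace Proof

/-- the composition of `φ_1` and `φ_2` -/
def f (a : Bool) : List Bool := (phi 2 a).flatMap (phi 1)

theorem f_len (a : Bool) : (f a).length = 28 := by cases a <;> decide

theorem f_app (θ : Anti) (a : Bool) : θ.app (f a) = f (θ.flip a) := by
  cases θ <;> cases a <;> decide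

theorem app_append (θ : Anti) (a b : List Bool) : θ.app (a ++ b) = θ.app b ++ θ.app a := by
  simp [Anti.app]

theorem flip_flip (θ : Anti) (a : Bool) : θ.flip (θ.flip a) = a := by
  cases θ <;> simp [Anti.flip]

theorem app_app (θ : Anti) (a : List Bool) : θ.app (θ.app a) = a := by
  simp only [Anti.app, List.map_reverse, List.reverse_reverse, List.map_map]
  conv_rhs => rw [← List.map_id a]
  apply List.map_congr_left
  intro x _
  exact flip_flip θ x

theorem app_length (θ : Anti) (a : List Bool) : (θ.app a).length = a.length := by
  simp [Anti.app]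

theorem app_flatMap (θ : Anti) (w : List Bool) :
    θ.app (w.flatMap f) = (θ.app w).flatMap f := by
  induction w with
  | nil => rfl
  | cons a w ih =>
    have h1 : θ.app (a :: w) = θ.app w ++ [θ.flip a] := by simp [Anti.app]
    rw [List.flatMap_cons, app_append, ih, f_app, h1, List.flatMap_append]
    simp

theorem fm_length (w : List Bool) : (w.flatMap f).length = 28 * w.length := by
  induction w with
  | nil => rfl
  | cons a w ih => rw [List.flatMap_cons, List.length_append, ih, f_len, List.length_cons]; ring

theorem fm_take (w : List Bool) (j : ℕ) (hj : j ≤ w.length) :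
    (w.flatMap f).take (28 * j) = (w.take j).flatMap f := by
  conv_lhs => rw [← List.take_append_drop j w, List.flatMap_append]
  apply List.take_left'
  rw [fm_length, List.length_take]
  congr 1
  omega

theorem fm_drop (w : List Bool) (j : ℕ) (hj : j ≤ w.length) :
    (w.flatMap f).drop (28 * j) = (w.drop j).flatMap f := by
  conv_lhs => rw [← List.take_append_drop j w, List.flatMap_append]
  apply List.drop_left'
  rw [fm_length, List.length_take]
  congr 1
  omega

theorem f_inj : ∀ a b, f a = f b → a = b := by decide

theorem fm_inj : ∀ v w : List Bool, v.flatMap f = w.flatMap f → v = w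
  | [], [], _ => rfl
  | [], b :: w, h => by
    have := congrArg List.length h
    rw [fm_length, fm_length] at this
    simp at this
  | a :: v, [], h => by
    have := congrArg List.length h
    rw [fm_length, fm_length] at this
    simp at this
  | a :: v, b :: w, h => by
    rw [List.flatMap_cons, List.flatMap_cons] at h
    obtain ⟨h1, h2⟩ := List.append_inj h (by rw [f_len, f_len])
    rw [f_inj a b h1, fm_inj v w h2]

theorem recog : ∀ a b c : Bool, ∀ d < 28, 0 < d → ((f a ++ f b).drop d).take 28 ≠ f c := by
  decide +kernel

/-- occurrences of blocks are aligned -/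
theorem aligned (v : List Bool) (i : ℕ) (c : Bool) (hi : i + 28 ≤ 28 * v.length)
    (h : ((v.flatMap f).drop i).take 28 = f c) : 28 ∣ i := by
  by_contra hd
  have hmod : 0 < i % 28 := Nat.pos_of_ne_zero (fun h0 => hd (Nat.dvd_of_mod_eq_zero h0))
  have hdm := Nat.div_add_mod i 28
  have hlt := Nat.mod_lt i (show 0 < 28 by norm_num)
  have hj : i / 28 + 1 < v.length := by omega
  apply recog (v[i / 28]) (v[i / 28 + 1]) c (i % 28) hlt hmod
  rw [← h]
  have e1 : (v.flatMap f).drop i = ((f v[i / 28] ++ f v[i / 28 + 1]) ++
      (v.drop (i / 28 + 1 + 1)).flatMap f).drop (i % 28) := by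
    conv_lhs => rw [← hdm, ← List.drop_drop, fm_drop v _ (by omega)]
    rw [List.drop_eq_getElem_cons (show i / 28 < v.length by omega),
      List.drop_eq_getElem_cons hj, List.flatMap_cons, List.flatMap_cons, ← List.append_assoc]
  rw [e1, List.drop_append_of_le_length (l₁ := f v[i / 28] ++ f v[i / 28 + 1])
    (by rw [List.length_append, f_len, f_len]; omega)]
  rw [List.take_append_of_le_length
    (l₁ := List.drop (i % 28) (f v[i / 28] ++ f v[i / 28 + 1]))
    (by rw [List.length_drop, List.length_append, f_len, f_len]; omega)]

/-- the overlap of a short palindrome with its prefix is a palindrome -/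
theorem suffix_pal {θ : Anti} {z p : List Bool} (hz : θ.app z = z) (hp : p <+: z)
    (hl : z.length ≤ 2 * p.length) :
    θ.app (p.drop (z.length - p.length)) = p.drop (z.length - p.length) := by
  obtain ⟨r, rfl⟩ := hp
  rw [List.length_append] at *
  rw [show p.length + r.length - p.length = r.length by omega]
  have h1 : p = p.take r.length ++ p.drop r.length := (List.take_append_drop _ _).symm
  rw [app_append] at hz
  conv at hz => lhs; arg 2; rw [h1, app_append]
  conv at hz => rhs; arg 1; rw [h1]
  rw [List.append_assoc] at hz
  obtain ⟨h2, h3⟩ := List.append_inj hz (by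
    rw [app_length, List.length_take]; omega)
  exact (List.append_inj h3 (app_length _ _)).1

/-- a palindromic suffix gives a short palindrome with the given prefix -/
theorem extend_pal {θ : Anti} {a b : List Bool} (hb : θ.app b = b) :
    θ.app (a ++ b ++ θ.app a) = a ++ b ++ θ.app a := by
  rw [app_append, app_append, app_app, hb, List.append_assoc]

/-- the data that can be lifted through the morphism -/
def S (θ : Anti) (w y : List Bool) : Prop :=
  IsClosure θ (w ++ [true]) y ∧ (∃ w' c, w = w' ++ [c] ∧
    (y.length < 2 * w.length ∨ (y.length ≤ 2 * w.length ∧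
      ((θ = .E ∧ c = false) ∨ (θ = .R ∧ c = true)))))

theorem short_check : ∀ (θ : Anti) (c : Bool), ((θ = .E ∧ c = false) ∨ (θ = .R ∧ c = true)) →
    ∀ a < 27, θ.app ((f c ++ [true]).drop a) ≠ (f c ++ [true]).drop a := by
  intro θ c
  cases θ <;> cases c <;> decide +kernel

theorem f_head (c : Bool) : ∃ r, f c = c :: r := by cases c <;> exact ⟨_, rfl⟩

theorem f_last (c : Bool) : (f c).drop 27 = [c] := by cases c <;> decide

theorem f_last' (c : Bool) : ∃ r, f c = r ++ [c] := by
  refine ⟨(f c).take 27, ?_⟩
  rw [← f_last c, List.take_append_drop]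

theorem lift {θ : Anti} {w y : List Bool} (h : S θ w y) :
    S θ (w.flatMap f) (y.flatMap f) := by
  obtain ⟨⟨hy1, hy2, hy3⟩, w', c, hw, hg⟩ := h
  have hwl : w.length = w'.length + 1 := by rw [hw]; simp
  refine ⟨⟨?_, ?_, ?_⟩, ?_⟩
  · rw [app_flatMap, hy1]
  · obtain ⟨r, rfl⟩ := hy2
    obtain ⟨r', hr'⟩ := f_head true
    refine ⟨r' ++ r.flatMap f, ?_⟩
    simp [List.flatMap_append, hr']
  · intro z hz1 hz2
    rw [fm_length]
    by_contra hc
    push Not at hc
    have hyl : y.length ≤ 2 * w.length := by
      rcases hg with h | h
      · omega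
      · exact h.1
    have hpl : (w.flatMap f ++ [true]).length = 28 * w.length + 1 := by
      rw [List.length_append, fm_length]; rfl
    have hzp : (w.flatMap f ++ [true]).length ≤ z.length := hz2.length_le
    have hb := suffix_pal hz1 hz2 (by rw [hpl]; omega)
    rw [hpl] at hb hzp
    rcases Nat.lt_or_ge (28 * w'.length) (z.length - (28 * w.length + 1)) with h1 | h1
    · -- short palindromic suffix
      rcases hg with h2 | ⟨h2, h3⟩
      · omega
      · have e1 : w.flatMap f ++ [true] = w'.flatMap f ++ (f c ++ [true]) := by
          rw [hw, List.flatMap_append]; simp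
        have e2 : z.length - (28 * w.length + 1) =
            (w'.flatMap f).length + (z.length - (28 * w.length + 1) - 28 * w'.length) := by
          rw [fm_length]; omega
        rw [e1, e2, List.drop_append, Nat.add_sub_cancel_left,
          List.drop_eq_nil_of_le (by omega), List.nil_append] at hb
        exact short_check θ c h3 _ (by omega) hb
    · -- long palindromic suffix
      set a := z.length - (28 * w.length + 1) with ha
      have hP : w.flatMap f ++ [true] <+: (w ++ [true]).flatMap f := by
        obtain ⟨r', hr'⟩ := f_head true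
        refine ⟨r', ?_⟩
        simp [List.flatMap_append, hr']
      -- the suffix `f c ++ [true]`
      have e1 : w.flatMap f ++ [true] = w'.flatMap f ++ (f c ++ [true]) := by
        rw [hw, List.flatMap_append]; simp
      have e3 : (w.flatMap f ++ [true]).drop a = (w'.flatMap f).drop a ++ (f c ++ [true]) := by
        rw [e1, List.drop_append_of_le_length (by rw [fm_length]; omega)]
      have e4 : (w.flatMap f ++ [true]).drop a =
          θ.flip true :: (f (θ.flip c) ++ θ.app ((w'.flatMap f).drop a)) := by
        rw [← hb, e3, app_append, app_append, f_app]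
        simp [Anti.app]
      have e5 : (w.flatMap f ++ [true]).drop (a + 1) =
          f (θ.flip c) ++ θ.app ((w'.flatMap f).drop a) := by
        rw [← List.drop_drop, e4]
        rfl
      have h28 : 28 ∣ a + 1 := by
        apply aligned (w ++ [true]) (a + 1) (θ.flip c)
        · rw [List.length_append]
          simp only [List.length_cons, List.length_nil]
          omega
        · obtain ⟨r', hr'⟩ := hP
          rw [← hr', List.drop_append_of_le_length (by rw [hpl]; omega), e5,
            List.append_assoc, List.take_append_of_le_length (by rw [f_len]),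
            List.take_of_length_le (by rw [f_len])]
      obtain ⟨j, hj⟩ := h28
      have hj1 : 1 ≤ j := by omega
      have hj2 : j ≤ w.length := by omega
      have e6 : (w.flatMap f).drop (a + 1) = (w.drop j).flatMap f := by
        rw [hj, fm_drop w j hj2]
      -- the letter before
      have hjw : j - 1 < w.length := by omega
      have e7 : (w.flatMap f).drop a = w[j - 1] :: (w.drop j).flatMap f := by
        have e8 : a = 28 * (j - 1) + 27 := by omega
        rw [e8, ← List.drop_drop, fm_drop w _ (by omega), List.drop_eq_getElem_cons hjw,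
          List.flatMap_cons, List.drop_append_of_le_length (by rw [f_len]; omega), f_last,
          show j - 1 + 1 = j by omega]
        rfl
      have e9 : (w.flatMap f ++ [true]).drop a =
          w[j - 1] :: ((w.drop j).flatMap f ++ [true]) := by
        rw [List.drop_append_of_le_length (by rw [fm_length]; omega), e7]
        rfl
      rw [e9] at hb
      have e10 : θ.app (w[j - 1] :: ((w.drop j).flatMap f ++ [true])) =
          θ.flip true :: (θ.app ((w.drop j).flatMap f) ++ [θ.flip (w[j - 1])]) := by
        simp [Anti.app]
      rw [e10] at hb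
      obtain ⟨h2, h3⟩ := List.cons.inj hb
      obtain ⟨h4, h5⟩ := List.append_inj h3 (app_length _ _)
      rw [app_flatMap] at h4
      have h6 := fm_inj _ _ h4
      have h7 : θ.app ((w ++ [true]).drop (j - 1)) = (w ++ [true]).drop (j - 1) := by
        rw [List.drop_append_of_le_length (by omega), List.drop_eq_getElem_cons hjw,
          show j - 1 + 1 = j by omega]
        have e11 : θ.app (w[j - 1] :: w.drop j ++ [true]) =
            θ.flip true :: (θ.app (w.drop j) ++ [θ.flip (w[j - 1])]) := by
          simp [Anti.app]
        rw [e11, h6, h2, List.cons_append]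
        rw [List.cons.injEq] at h5
        rw [h5.1]
      have h8 := hy3 _ (extend_pal (a := (w ++ [true]).take (j - 1)) h7)
        (by rw [List.take_append_drop]; exact List.prefix_append _ _)
      rw [List.take_append_drop, List.length_append, app_length, List.length_take,
        List.length_append] at h8
      simp only [List.length_cons, List.length_nil] at h8
      omega
  · obtain ⟨r, hr⟩ := f_last' c
    refine ⟨w'.flatMap f ++ r, c, ?_, ?_⟩
    · rw [hw, List.flatMap_append, List.append_assoc, ← hr]
      simp
    · rw [fm_length, fm_length]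
      rcases hg with h | ⟨h, h'⟩
      · left; omega
      · right; exact ⟨by omega, h'⟩

theorem closure_of_check {θ : Anti} {p y : List Bool} (h1 : θ.app y = y) (h2 : p <+: y)
    (h3 : y.length ≤ 2 * p.length)
    (h4 : ∀ a < y.length - p.length, θ.app (p.drop a) ≠ p.drop a) : IsClosure θ p y := by
  refine ⟨h1, h2, ?_⟩
  intro z hz1 hz2
  by_contra hc
  push Not at hc
  have h5 := hz2.length_le
  exact h4 (z.length - p.length) (by omega) (suffix_pal hz1 hz2 (by omega))

/-- the first pseudopalindromic prefixes -/
def B (j : ℕ) : List Bool := (f false).take ([1, 2, 4, 8, 16].getD j 28)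

/-- the antimorphisms of the first steps -/
def T (j : ℕ) : Anti := [Anti.E, .R, .E, .R].getD j .R

theorem base (j : ℕ) (hj : j < 5) : S (T j) (B j) (B (j + 1)) := by
  have hc : ∀ j < 5, (T j).app (B (j + 1)) = B (j + 1) ∧ B j ++ [true] <+: B (j + 1) ∧
      (B (j + 1)).length ≤ 2 * (B j ++ [true]).length ∧
      (∀ a < (B (j + 1)).length - (B j ++ [true]).length,
        (T j).app ((B j ++ [true]).drop a) ≠ (B j ++ [true]).drop a) := by decide +kernel
  obtain ⟨h1, h2, h3, h4⟩ := hc j hj
  refine ⟨closure_of_check h1 h2 h3 h4, (B j).dropLast, (B j).getLastD false, ?_⟩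
  have hd : ∀ j < 5, B j = (B j).dropLast ++ [(B j).getLastD false] ∧
    ((B (j + 1)).length < 2 * (B j).length ∨ ((B (j + 1)).length ≤ 2 * (B j).length ∧
      ((T j = .E ∧ (B j).getLastD false = false) ∨
        (T j = .R ∧ (B j).getLastD false = true)))) := by decide +kernel
  exact hd j hj

/-- the iterates -/
def F (n : ℕ) (w : List Bool) : List Bool := (fun w : List Bool => w.flatMap f)^[n] w

theorem F_succ (n : ℕ) (w : List Bool) : F (n + 1) w = (F n w).flatMap f :=
  Function.iterate_succ_apply' _ _ _

theorem F_succ' (n : ℕ) (w : List Bool) : F (n + 1) w = F n (w.flatMap f) :=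
  Function.iterate_succ_apply _ _ _

theorem F_S {θ : Anti} {w y : List Bool} (h : S θ w y) (n : ℕ) : S θ (F n w) (F n y) := by
  induction n with
  | zero => exact h
  | succ n ih => rw [F_succ, F_succ]; exact lift ih

theorem F_prefix {v w : List Bool} (h : v <+: w) (n : ℕ) : F n v <+: F n w := by
  induction n with
  | zero => exact h
  | succ n ih =>
    rw [F_succ, F_succ]
    obtain ⟨r, hr⟩ := ih
    rw [← hr, List.flatMap_append]
    exact List.prefix_append _ _

theorem F_length (n : ℕ) (w : List Bool) : (F n w).length = 28 ^ n * w.length := by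
  induction n with
  | zero => simp [F]
  | succ n ih => rw [F_succ, fm_length, ih, pow_succ]; ring

theorem F_mono {m n : ℕ} (h : m ≤ n) : F m [false] <+: F n [false] := by
  induction n with
  | zero =>
    have : m = 0 := by omega
    subst this
    exact List.prefix_refl _
  | succ n ih =>
    rcases Nat.lt_or_ge n m with h1 | h1
    · have : m = n + 1 := by omega
      subst this
      exact List.prefix_refl _
    · refine (ih h1).trans ?_
      rw [F_succ']
      apply F_prefix
      obtain ⟨r, hr⟩ := f_head false
      exact ⟨r, by simp [hr]⟩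

/-- the infinite word -/
def u (i : ℕ) : Bool := (F (i + 1) [false]).getD i false

theorem lt_pow (i : ℕ) : i < 28 ^ (i + 1) :=
  (Nat.lt_pow_self (by norm_num)).trans (Nat.pow_lt_pow_right (by norm_num) (Nat.lt_succ_self i))

theorem u_eq {n i : ℕ} (hi : i < (F n [false]).length) : u i = (F n [false])[i] := by
  have h1 : i < (F (i + 1) [false]).length := by
    rw [F_length]; simpa using lt_pow i
  rw [u, List.getD_eq_getElem _ _ h1]
  rcases le_total n (i + 1) with h | h
  · exact ((F_mono h).getElem hi).symm
  · exact (F_mono h).getElem h1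

theorem pre_length (v : ℕ → Bool) (n : ℕ) : (pre v n).length = n := by simp [pre]

theorem pre_u (n : ℕ) : pre u (F n [false]).length = F n [false] := by
  apply List.ext_getElem
  · rw [pre_length]
  · intro i h1 h2
    simp only [pre, List.getElem_map, List.getElem_range]
    exact u_eq h2

theorem pre_prefix (v : ℕ → Bool) {m n : ℕ} (h : m ≤ n) : pre v m <+: pre v n := by
  obtain ⟨k, rfl⟩ := Nat.exists_eq_add_of_le h
  rw [pre, pre, List.range_add, List.map_append]
  exact List.prefix_append _ _

theorem eq_pre_of_prefix {v : ℕ → Bool} {w : List Bool} {n : ℕ} (h : w <+: pre v n) :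
    w = pre v w.length := by
  have h1 := h.length_le
  rw [pre_length] at h1
  have h2 := List.prefix_of_prefix_length_le h (pre_prefix v h1) (by rw [pre_length])
  exact h2.eq_of_length (by rw [pre_length])

theorem eq_pre {w : List Bool} {n : ℕ} (h : w <+: F n [false]) : w = pre u w.length := by
  rw [← pre_u n] at h
  exact eq_pre_of_prefix h

theorem pre_prefix_F (n : ℕ) : pre u n <+: F n [false] := by
  rw [← pre_u n]
  apply pre_prefix
  rw [F_length]
  have : n < 28 ^ n := Nat.lt_pow_self (by norm_num)
  simpa using this.le

theorem fixes_f : Fixes f u := by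
  intro n
  apply eq_pre (n := n + 1)
  rw [F_succ]
  obtain ⟨r, hr⟩ := pre_prefix_F n
  rw [← hr, List.flatMap_append]
  exact List.prefix_append _ _

theorem fix_pre (n : ℕ) : (pre u n).flatMap f = pre u (28 * n) := by
  have := fixes_f n
  rwa [fm_length, pre_length] at this

theorem pre_get (v : ℕ → Bool) {n i : ℕ} (h : i < (pre v n).length) : (pre v n)[i] = v i := by
  simp [pre]

theorem aperiodic : Aperiodic u := by
  classical
  intro hex
  have hex' : ∃ p, 0 < p ∧ ∃ N, ∀ i, N ≤ i → u (i + p) = u i := by
    obtain ⟨N, p, h1, h2⟩ := hex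
    exact ⟨p, h1, N, h2⟩
  obtain ⟨h1, N, h2⟩ := Nat.find_spec hex'
  set p := Nat.find hex' with hp
  -- blocks
  have hblock : ∀ i, (pre u (28 * (i + 1))).drop (28 * i) = f (u i) := by
    intro i
    have h3 : pre u (i + 1) = pre u i ++ [u i] := by
      simp [pre, List.range_succ]
    rw [← fix_pre, h3, List.flatMap_append, List.drop_left' (by rw [fm_length, pre_length])]
    simp
  have hu : ∀ i d (hd : d < 28), u (28 * i + d) = (f (u i))[d]'(by rw [f_len]; exact hd) := by
    intro i d hd
    have h3 := hblock i
    have h4 : (f (u i))[d]'(by rw [f_len]; exact hd) =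
        ((pre u (28 * (i + 1))).drop (28 * i))[d]'(by rw [h3, f_len]; exact hd) := by
      congr 1
      exact h3.symm
    rw [h4, List.getElem_drop, pre_get]
  have hwin : ((pre u (28 * (N + p + 2))).drop (28 * N + p)).take 28 = f (u N) := by
    apply List.ext_getElem
    · rw [List.length_take, List.length_drop, pre_length, f_len]
      omega
    · intro d hd1 hd2
      rw [f_len] at hd2
      rw [List.getElem_take, List.getElem_drop, pre_get, ← hu N d hd2,
        show 28 * N + p + d = 28 * N + d + p by omega, h2 _ (by omega)]
  rw [← fix_pre] at hwin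
  have h28 := aligned (pre u (N + p + 2)) (28 * N + p) (u N) (by rw [pre_length]; omega) hwin
  have h28' : 28 ∣ p := (Nat.dvd_add_right (Dvd.intro _ rfl)).1 h28
  obtain ⟨p', hp'⟩ := h28'
  have hu0 : ∀ i, u (28 * i) = u i := by
    intro i
    have := hu i 0 (by norm_num)
    rw [Nat.add_zero] at this
    rw [this]
    generalize u i = c
    cases c <;> rfl
  have hfin : 0 < p' ∧ ∃ N, ∀ i, N ≤ i → u (i + p') = u i := by
    refine ⟨by omega, N, ?_⟩
    intro i hi
    rw [← hu0 (i + p'), ← hu0 i, show 28 * (i + p') = 28 * i + p by omega, h2 _ (by omega)]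
  have := Nat.find_min' hex' hfin
  omega

theorem primitive_f : Primitive f := ⟨1, le_rfl, by decide⟩

/-- the chain of pseudopalindromic prefixes -/
def chain : ℕ → List Bool
  | 0 => []
  | n + 1 => F (n / 5) (B (n % 5))

theorem F_B5 (q : ℕ) : F q (B 5) = F (q + 1) (B 0) := by
  rw [F_succ']
  congr 1

theorem chain_next (n : ℕ) : chain (n + 2) = F (n / 5) (B (n % 5 + 1)) := by
  show F ((n + 1) / 5) (B ((n + 1) % 5)) = _
  rcases Nat.lt_or_ge (n % 5) 4 with h | h
  · rw [show (n + 1) / 5 = n / 5 by omega, show (n + 1) % 5 = n % 5 + 1 by omega]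
  · rw [show (n + 1) / 5 = n / 5 + 1 by omega, show (n + 1) % 5 = 0 by omega,
      show n % 5 + 1 = 5 by omega, F_B5]

theorem isGPS : ∃ Δ Θ, IsGPS Δ Θ u := by
  refine ⟨fun n => decide (n ≠ 0), fun n => if n = 0 then .R else T ((n - 1) % 5),
    chain, rfl, ?_, ?_⟩
  · intro n
    cases n with
    | zero =>
      have : chain 1 = [false] := by decide
      show IsClosure Anti.R ([] ++ [false]) (chain 1)
      rw [this]
      refine ⟨rfl, List.prefix_refl _, ?_⟩
      intro z _ hz
      exact hz.length_le
    | succ n =>
      show IsClosure (if n + 1 = 0 then .R else T ((n + 1 - 1) % 5))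
        (chain (n + 1) ++ [decide (n + 1 ≠ 0)]) (chain (n + 2))
      rw [if_neg (by omega), chain_next, Nat.add_sub_cancel]
      have h1 : decide (n + 1 ≠ 0) = true := by simp
      rw [h1]
      exact (F_S (base (n % 5) (Nat.mod_lt _ (by norm_num))) (n / 5)).1
  · intro n
    cases n with
    | zero => rfl
    | succ n =>
      apply eq_pre (n := n / 5 + 1)
      show F (n / 5) (B (n % 5)) <+: _
      rw [F_succ']
      apply F_prefix
      rw [B]
      simp only [List.flatMap_cons, List.flatMap_nil, List.append_nil]
      exact List.take_prefix _ _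

theorem pre28 : pre u 28 = f false := by
  have := pre_u 1
  rw [F_length] at this
  have h2 : F 1 [false] = f false := by
    rw [F_succ']
    simp [F]
  rw [h2] at this
  simpa using this

theorem pre_small (n : ℕ) (hn : n ≤ 28) : pre u n = (f false).take n := by
  rw [← pre28]
  have h := pre_prefix u hn
  rw [List.prefix_iff_eq_take, pre_length] at h
  exact h

theorem u_small (i : ℕ) (hi : i < 28) : u i = (f false)[i]'(by rw [f_len]; exact hi) := by
  have h := pre28
  have h1 : (pre u 28)[i]'(by rw [pre_length]; exact hi) = u i := pre_get _ _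
  rw [← h1]
  congr 1

theorem not_sturmian : ¬ ∃ Δ, IsGPS Δ (fun _ => Anti.R) u := by
  rintro ⟨Δ, w, hw0, hw, hpre⟩
  obtain ⟨_, h2, h3⟩ := hw 0
  rw [hw0, List.nil_append] at h2 h3
  have hl1 : (w 1).length = 1 := by
    have a1 : 1 ≤ (w 1).length := by simpa using h2.length_le
    have a2 : (w 1).length ≤ 1 := by simpa using h3 [Δ 0] rfl (List.prefix_refl _)
    omega
  have hw1 : w 1 = [false] := by
    rw [hpre 1, hl1, pre_small 1 (by norm_num)]
    rfl
  obtain ⟨g1, g2, g3⟩ := hw 1
  rw [hw1] at g2 g3
  have hl2 : 2 ≤ (w 2).length := by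
    have := g2.length_le
    simpa using this
  have hd : Δ 1 = true := by
    have a1 : [false] ++ [Δ 1] = pre u 2 := by
      have := hpre 2
      rw [this] at g2
      have := eq_pre_of_prefix g2
      simpa using this
    rw [pre_small 2 (by norm_num)] at a1
    have a2 : (f false).take 2 = [false] ++ [true] := by decide
    rw [a2] at a1
    simpa using a1
  have hl3 : (w 2).length ≤ 3 := by
    have := g3 [false, true, false] rfl (by rw [hd]; exact ⟨[false], rfl⟩)
    simpa using this
  have hcase : (w 2).length = 2 ∨ (w 2).length = 3 := by omega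
  have h4 := hpre 2
  rcases hcase with h | h
  · rw [h, pre_small 2 (by norm_num)] at h4
    rw [h4] at g1
    exact absurd g1 (by decide)
  · rw [h, pre_small 3 (by norm_num)] at h4
    rw [h4] at g1
    exact absurd g1 (by decide)

theorem phi_length (k : ℕ) (a : Bool) : (phi k a).length = 3 * k + 1 := by
  simp [phi, mul_comm]

theorem not_phi (k : ℕ) (hk : 1 ≤ k) : ¬ Fixes (phi k) u := by
  intro h
  rcases Nat.lt_or_ge k 2 with h1 | h1
  · have : k = 1 := by omega
    subst this
    have h2 := h 8
    rw [pre_small 8 (by norm_num)] at h2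
    have h3 : (((f false).take 8).flatMap (phi 1)).length = 32 := by decide
    rw [h3] at h2
    have h4 := congrArg (List.take 28) h2
    have h5 : (pre u 32).take 28 = pre u 28 := by
      have h := pre_prefix u (show 28 ≤ 32 by norm_num)
      rw [List.prefix_iff_eq_take, pre_length] at h
      exact h.symm
    rw [h5, pre28] at h4
    exact absurd h4 (by decide)
  · have h2 := h 1
    rw [pre_small 1 (by norm_num)] at h2
    have h3 : ((f false).take 1).flatMap (phi k) = phi k false := by
      have : (f false).take 1 = [false] := by decide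
      rw [this]
      simp
    rw [h3] at h2
    obtain ⟨m, rfl⟩ := Nat.exists_eq_add_of_le h1
    have h4 : (phi (2 + m) false).take 7 = [false, true, true, false, true, true, false] := by
      rw [phi, List.replicate_add, List.flatten_append]
      simp
    have h5 := congrArg (List.take 7) h2
    have h6 : (pre u (phi (2 + m) false).length).take 7 = pre u 7 := by
      have h := pre_prefix u (show 7 ≤ (phi (2 + m) false).length by rw [phi_length]; omega)
      rw [List.prefix_iff_eq_take, pre_length] at h
      exact h.symm
    rw [h4, h6, pre_small 7 (by norm_num)] at h5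
    exact absurd h5 (by decide)

end Proof

/-- **There is an aperiodic binary generalized pseudostandard word that is not standard Sturmian,
is fixed by a primitive morphism, and is fixed by none of the morphisms `φ_k`.** -/
theorem result : ∃ u : ℕ → Bool, Aperiodic u ∧ (∃ Δ Θ, IsGPS Δ Θ u) ∧
    (¬ ∃ Δ, IsGPS Δ (fun _ => Anti.R) u) ∧ (∃ φ, Primitive φ ∧ Fixes φ u) ∧
    ∀ k, 1 ≤ k → ¬ Fixes (phi k) u :=
  ⟨Proof.u, Proof.aperiodic, Proof.isGPS, Proof.not_sturmian,
    ⟨Proof.f, Proof.primitive_f, Proof.fixes_f⟩, Proof.not_phi⟩

end Pool.Agent.Results.MP_b60f05_co.Composite
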